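import Pool.Agent.H66.AV.TF

/-!
# Row PGA of avh_modules (MP_0f8dca_lc): protocols do not notice a special row
-/

set_option autoImplicit false

namespace Pool.Agent.H75.AVH

open Finset Pool.Agent.H6.NB Pool.Agent.H70.OQ Pool.Agent.H70.EH Pool.Agent.H70.EI
open Pool.Agent.H66.IQ Pool.Agent.H66.AV

theorem pga_val (k : ℕ) (G : Prot k) (O : List Bool → Bool) : 0 ≤ G.val O ∧ G.val O ≤ 1 := by
  induction G with
  | test T =>
    unfold Prot.val
    split_ifs <;> constructor <;> norm_num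
  | coin l r hl hr =>
    unfold Prot.val
    constructor <;> linarith [hl.1, hl.2, hr.1, hr.2]
  | say l r hl hr =>
    unfold Prot.val
    exact ⟨le_max_of_le_left hl.1, max_le hl.2 hr.2⟩

theorem pga_ic (p : Prop) : 0 ≤ ic p := by
  unfold ic
  split_ifs <;> norm_num

theorem pga_num {h b : ℝ} {n : ℕ} (h0 : 0 ≤ h) (hb : 2 ^ (n + 1) * b ≤ h) :
    h * (2 ^ n / 2 ^ (n / 3 + 1)) + b * 2 ^ n ≤ h * 2 ^ n * (1 / 2) ^ (n / 3) := by
  have h1 : (2 : ℝ) ^ (n / 3) ≤ 2 ^ n := pow_le_pow_right₀ (by norm_num) (Nat.div_le_self n 3)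
  have h2 : (0 : ℝ) < 2 ^ (n / 3) := by positivity
  have h3 : (2 : ℝ) ^ n * (1 / 2) ^ (n / 3) = 2 ^ n / 2 ^ (n / 3) := by
    rw [one_div, inv_pow, div_eq_mul_inv]
  have h4 : (1 : ℝ) ≤ 2 ^ n / 2 ^ (n / 3) := by
    rw [le_div_iff₀ h2]
    linarith
  have h5 : (2 : ℝ) ^ n / 2 ^ (n / 3 + 1) = 2 ^ n / 2 ^ (n / 3) / 2 := by
    rw [pow_succ, div_mul_eq_div_div]
  have h6 : b * 2 ^ n ≤ h / 2 := by
    rw [pow_succ] at hb
    linarith
  rw [mul_assoc, h3, h5]
  nlinarith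

theorem pf_PGA (hEXP : Pool.Agent.H66.IQ.T_EXP) (hTBJ : T_TBJ)
    (hFML : Pool.Agent.H70.EI.T_FML) : T_PGA := by
  classical
  intro k
  obtain ⟨n₀, hn₀⟩ := hTBJ k
  refine ⟨n₀, fun n hn G hG O hO => ?_⟩
  obtain ⟨K, hK, hT⟩ := hn₀ n hn
  obtain ⟨Ψ, hΨc, hΨs, hΨ⟩ := hEXP k (2 ^ (n / 6)) G hG
  have hf : ∀ c : Machine k × List Bool, ∃ f : (Nn n k → Bool) → Bool, c ∈ Ψ →
      Fm (2 ^ (2 ^ (n / 6) + 1)) (2 ^ (n / 6) + 1) k f ∧
      ∀ y, (f y = true ↔ c.2 ∈ c.1.lang (O y)) := by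
    intro c
    by_cases hc : c ∈ Ψ
    · obtain ⟨f, h1, h2⟩ := hFML (Nn n k) k c.1 O c.2 (2 ^ (n / 6) + 1)
        (Nat.lt_succ_of_le (hΨs c hc)) hO
      exact ⟨f, fun _ => ⟨h1, h2⟩⟩
    · exact ⟨fun _ => true, fun h => absurd h hc⟩
  choose f hf using hf
  choose μ hμ0 hμ1 hμ2 using hΨ
  set Hd := Hid (Fin n → Bool) (Ys n) k with hHd
  set Bad : Finset Hd := univ.filter fun H => ∃ c ∈ Ψ, K < (senT k (f c) H).card with hBad
  have hBc : 2 ^ (n + 1) * Bad.card ≤ Fintype.card Hd := by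
    have h1 : Bad ⊆ Ψ.biUnion fun c => univ.filter fun H : Hd => K < (senT k (f c) H).card := by
      intro H hH
      rw [hBad, mem_filter] at hH
      obtain ⟨_, c, hc, h⟩ := hH
      rw [mem_biUnion]
      exact ⟨c, hc, mem_filter.2 ⟨mem_univ _, h⟩⟩
    have h2 : Bad.card ≤ ∑ c ∈ Ψ, (univ.filter fun H : Hd => K < (senT k (f c) H).card).card :=
      (card_le_card h1).trans card_biUnion_le
    have h3 : 2 ^ (2 * 2 ^ (n / 6) + n + 1) *
        ∑ c ∈ Ψ, (univ.filter fun H : Hd => K < (senT k (f c) H).card).card ≤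
        2 ^ (2 * 2 ^ (n / 6)) * Fintype.card Hd := by
      rw [mul_sum]
      calc _ ≤ ∑ _c ∈ Ψ, Fintype.card Hd := sum_le_sum fun c hc => hT (f c) (hf c hc).1
        _ = Ψ.card * Fintype.card Hd := by rw [sum_const, smul_eq_mul]
        _ ≤ _ := Nat.mul_le_mul_right _ hΨc
    have h4 : 2 ^ (2 * 2 ^ (n / 6)) * (2 ^ (n + 1) * Bad.card) ≤
        2 ^ (2 * 2 ^ (n / 6)) * Fintype.card Hd := by
      refine le_trans ?_ h3
      rw [add_assoc, pow_add (2 : ℕ) (2 * 2 ^ (n / 6)) (n + 1),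
        ← mul_assoc (2 ^ (2 * 2 ^ (n / 6))) (2 ^ (n + 1)) Bad.card]
      exact Nat.mul_le_mul_left _ h2
    exact Nat.le_of_mul_le_mul_left h4 (by positivity)
  have hcardX : Fintype.card (Fin n → Bool) = 2 ^ n := by simp
  set a : Hd × (Fin n → Bool) → ℝ := fun z => if z.1 ∈ Bad then 1 else
    ∑ c ∈ Ψ, μ (O (tabT k z.1)) c * ic (¬ (c.2 ∈ c.1.lang (O (tabT k z.1)) ↔
        c.2 ∈ c.1.lang (O (tabU k z.1 z.2)))) with ha
  have hgood : ∀ H : Hd, H ∉ Bad → ∑ x : Fin n → Bool, a (H, x) ≤ 2 ^ n / 2 ^ (n / 3 + 1) := by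
    intro H hH
    have h1 : ∀ c ∈ Ψ, (senT k (f c) H).card ≤ K := by
      intro c hc
      by_contra hlt
      exact hH (by
        rw [hBad, mem_filter]
        exact ⟨mem_univ _, c, hc, not_le.1 hlt⟩)
    have h2 : ∀ c ∈ Ψ, ∑ x : Fin n → Bool, ic (¬ (c.2 ∈ c.1.lang (O (tabT k H)) ↔
        c.2 ∈ c.1.lang (O (tabU k H x)))) = ((senT k (f c) H).card : ℝ) := by
      intro c hc
      have h3 : ∀ x : Fin n → Bool, ic (¬ (c.2 ∈ c.1.lang (O (tabT k H)) ↔
          c.2 ∈ c.1.lang (O (tabU k H x)))) =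
          if f c (tabU k H x) ≠ f c (tabT k H) then (1 : ℝ) else 0 := by
        intro x
        have h4 : (¬ (c.2 ∈ c.1.lang (O (tabT k H)) ↔ c.2 ∈ c.1.lang (O (tabU k H x)))) ↔
            f c (tabU k H x) ≠ f c (tabT k H) := by
          rw [← (hf c hc).2, ← (hf c hc).2]
          cases f c (tabT k H) <;> cases f c (tabU k H x) <;> simp
        unfold ic
        by_cases h5 : f c (tabU k H x) ≠ f c (tabT k H)
        · rw [if_pos h5, if_pos (h4.2 h5)]
        · rw [if_neg h5, if_neg (fun h => h5 (h4.1 h))]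
      rw [sum_congr rfl fun x _ => h3 x, sum_boole]
      rfl
    have h6 : ∀ x, a (H, x) = ∑ c ∈ Ψ, μ (O (tabT k H)) c *
        ic (¬ (c.2 ∈ c.1.lang (O (tabT k H)) ↔ c.2 ∈ c.1.lang (O (tabU k H x)))) := by
      intro x
      rw [ha]
      simp only
      rw [if_neg hH]
    rw [sum_congr rfl fun x _ => h6 x]
    calc _ = ∑ c ∈ Ψ, μ (O (tabT k H)) c * ((senT k (f c) H).card : ℝ) := by
          rw [sum_comm]
          refine sum_congr rfl fun c hc => ?_
          rw [← mul_sum, h2 c hc]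
      _ ≤ ∑ c ∈ Ψ, μ (O (tabT k H)) c * (K : ℝ) := sum_le_sum fun c hc =>
          mul_le_mul_of_nonneg_left (by exact_mod_cast h1 c hc) (hμ0 _ c)
      _ = (∑ c ∈ Ψ, μ (O (tabT k H)) c) * K := by rw [sum_mul]
      _ ≤ ((2 ^ (n / 6) : ℕ) : ℝ) * K := mul_le_mul_of_nonneg_right (hμ1 _) (Nat.cast_nonneg _)
      _ ≤ 2 ^ n / 2 ^ (n / 3 + 1) := by
          rw [le_div_iff₀ (by positivity)]
          have h3 : ((2 ^ (n / 3 + 1) * (2 ^ (n / 6) * K) : ℕ) : ℝ) ≤ ((2 ^ n : ℕ) : ℝ) := by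
            exact_mod_cast hK
          push_cast at h3 ⊢
          linarith
  refine ⟨a, fun z => ?_, ?_, fun z => ?_⟩
  · rw [ha]
    simp only
    split_ifs
    · norm_num
    · exact sum_nonneg fun c _ => mul_nonneg (hμ0 _ c) (pga_ic _)
  · rw [Fintype.sum_prod_type]
    have hall : ∀ H : Hd, ∑ x : Fin n → Bool, a (H, x) ≤
        2 ^ n / 2 ^ (n / 3 + 1) + if H ∈ Bad then 2 ^ n else 0 := by
      intro H
      by_cases h : H ∈ Bad
      · rw [if_pos h]
        have h1 : ∑ x : Fin n → Bool, a (H, x) = 2 ^ n := by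
          have h2 : ∀ x : Fin n → Bool, a (H, x) = 1 := fun x => by
            rw [ha]
            simp only
            rw [if_pos h]
          rw [sum_congr rfl fun x _ => h2 x, sum_const, card_univ, hcardX, nsmul_eq_mul, mul_one]
          push_cast
          rfl
        have h0 : (0 : ℝ) ≤ 2 ^ n / 2 ^ (n / 3 + 1) := by positivity
        linarith
      · rw [if_neg h, add_zero]
        exact hgood H h
    calc _ ≤ ∑ H : Hd, ((2 : ℝ) ^ n / 2 ^ (n / 3 + 1) + if H ∈ Bad then 2 ^ n else 0) :=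
          sum_le_sum fun H _ => hall H
      _ = Fintype.card Hd * ((2 : ℝ) ^ n / 2 ^ (n / 3 + 1)) + Bad.card * 2 ^ n := by
          rw [sum_add_distrib, sum_const, card_univ, nsmul_eq_mul, sum_ite_mem, univ_inter,
            sum_const, nsmul_eq_mul]
      _ ≤ _ := by
          rw [Fintype.card_prod, hcardX]
          have h5 : ((2 ^ (n + 1) * Bad.card : ℕ) : ℝ) ≤ Fintype.card Hd := by exact_mod_cast hBc
          push_cast at h5 ⊢
          exact pga_num (Nat.cast_nonneg _) h5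
  · rw [ha]
    simp only
    split_ifs with h
    · have h1 := pga_val k G (O (tabT k z.1))
      have h2 := pga_val k G (O (tabU k z.1 z.2))
      linarith [h1.2, h2.1]
    · exact hμ2 _ _

end Pool.Agent.H75.AVH
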